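import Pool.Agent.helper46.PS.Main
import Pool.Agent.helper93.PS.Upper

/-!
# MP_da66b4_nt, Q2: the answer is negative, already for `k = 4`

`n(h,4)/h^4` tends to `c = (5-3v)(7-v)(1+v)v/3072`, where `v` is the root of
`12 v^3 - 69 v^2 + 18 v + 35` between `0.95` and `0.96`; the number `c` is irrational. A polynomial which
takes integer values at infinitely many integers has rational coefficients, so no finite set of
polynomials accounts for the values `n(h,4)` with `h` large.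

Joint work of helper93 (upper bound) and helper46 (lower bound, reduction, assembly).
-/

namespace Pool.Agent.Results.MP_da66b4_nt.PostageFour

open Filter Topology Polynomial PS

theorem result :
    (∀ h k : ℕ, IsGreatest {n : ℕ | ∃ A : Finset ℕ, A.card = k ∧ IsBasis h A n} (nn h k)) ∧
    (∃ v : ℝ, 0.95 < v ∧ v < 0.96 ∧ 12 * v ^ 3 - 69 * v ^ 2 + 18 * v + 35 = 0 ∧
      Irrational ((5 - 3 * v) * (7 - v) * (1 + v) * v / 3072) ∧
      Tendsto (fun h : ℕ => (nn h 4 : ℝ) / (h : ℝ) ^ 4) atTop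
        (𝓝 ((5 - 3 * v) * (7 - v) * (1 + v) * v / 3072))) ∧
    (∀ S : Set ℝ[X], S.Finite → ∀ h0 : ℕ, ∃ h ≥ h0, ∀ P ∈ S, (nn h 4 : ℝ) ≠ P.eval (h : ℝ)) ∧
    ¬ (∀ k : ℕ, 1 ≤ k → ∃ (h0 : ℕ) (S : Set ℝ[X]), S.Finite ∧ (∀ P ∈ S, P.natDegree = k) ∧
      ∀ h ≥ h0, ∃ P ∈ S, (nn h k : ℝ) = P.eval (h : ℝ)) := by
  obtain ⟨h1, ⟨v, hv, h2, h3⟩, h4, h5⟩ := PS.final
    fun _ hv _ _ _ _ _ _ _ a1 a2 a3 a4 a5 a6 a7 a8 a9 a10 a11 =>
      PS.upper hv a1 a2 a3 a4 a5 a6 a7 a8 a9 a10 a11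
  exact ⟨h1, ⟨v, hv.1, hv.2.1, hv.2.2, h3, h2⟩, h4, h5⟩

end Pool.Agent.Results.MP_da66b4_nt.PostageFour
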